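import Mathlib

/-!
# Strictness of the Jordan identities in every characteristic

A quadratic map `U : A → End A` over the integers which satisfies the two Jordan identities, the
linearisation of the first one and four auxiliary identities of degree at most two in every
letter satisfies the two Jordan identities after every scalar extension.
-/

set_option autoImplicit false

open scoped TensorProduct

namespace Pool.Agent.HuaStr91

section ext

variable {A : Type*} [AddCommGroup A] {Ω : Type*} [CommRing Ω]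
  {N : Type*} [AddCommGroup N] [Module Ω N]

/-- a linear function vanishes if it vanishes on the original module -/
lemma lin_ext (f : Ω ⊗[ℤ] A → N) (h1 : ∀ x y, f (x + y) = f x + f y)
    (h2 : ∀ (ω : Ω) x, f (ω • x) = ω • f x) (h : ∀ a : A, f ((1 : Ω) ⊗ₜ[ℤ] a) = 0) :
    ∀ x, f x = 0 := by
  intro x
  induction x using TensorProduct.induction_on with
  | zero =>
    have := h2 0 0
    rwa [zero_smul, zero_smul] at this
  | add x y ihx ihy => rw [h1, ihx, ihy, add_zero]
  | tmul ω a =>
    have h3 : ω ⊗ₜ[ℤ] a = ω • ((1 : Ω) ⊗ₜ[ℤ] a) := by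
      rw [TensorProduct.smul_tmul', smul_eq_mul, mul_one]
    rw [h3, h2, h, smul_zero]

/-- a quadratic function vanishes if it vanishes on the original module -/
lemma quad_ext (f : Ω ⊗[ℤ] A → N) (g : Ω ⊗[ℤ] A → Ω ⊗[ℤ] A → N)
    (hf : ∀ x y, f (x + y) = f x + f y + g x y)
    (hs : ∀ (ω : Ω) x, f (ω • x) = (ω * ω) • f x)
    (g1 : ∀ x y z, g (x + y) z = g x z + g y z)
    (g2 : ∀ x y z, g x (y + z) = g x y + g x z)
    (gs1 : ∀ (ω : Ω) x y, g (ω • x) y = ω • g x y)
    (gs2 : ∀ (ω : Ω) x y, g x (ω • y) = ω • g x y)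
    (h : ∀ a : A, f ((1 : Ω) ⊗ₜ[ℤ] a) = 0) :
    ∀ x, f x = 0 := by
  have hg : ∀ x y, g x y = 0 := by
    intro x y
    refine lin_ext (fun x => g x y) (fun x z => g1 x z y) (fun ω x => gs1 ω x y) ?_ x
    intro a
    refine lin_ext (fun y => g ((1 : Ω) ⊗ₜ[ℤ] a) y) (fun x z => g2 _ x z)
      (fun ω x => gs2 ω _ x) ?_ y
    intro b
    have h1 := hf ((1 : Ω) ⊗ₜ[ℤ] a) ((1 : Ω) ⊗ₜ[ℤ] b)
    rw [← TensorProduct.tmul_add, h, h, h, zero_add, zero_add] at h1
    exact h1.symm
  intro x
  induction x using TensorProduct.induction_on with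
  | zero =>
    have := hs 0 0
    rwa [zero_smul, mul_zero, zero_smul] at this
  | add x y ihx ihy => rw [hf, ihx, ihy, hg, add_zero, add_zero]
  | tmul ω a =>
    have h3 : ω ⊗ₜ[ℤ] a = ω • ((1 : Ω) ⊗ₜ[ℤ] a) := by
      rw [TensorProduct.smul_tmul', smul_eq_mul, mul_one]
    rw [h3, hs, h, smul_zero]

end ext

/-- The auxiliary identities. -/
structure Ids {R M : Type*} [CommRing R] [AddCommGroup M] [Module R M]
    (U : QuadraticMap R M (Module.End R M)) : Prop where
  qj2 : ∀ a b c, U a (U.polarBilin b c a) = U.polarBilin a (U a c) b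
  jp2 : ∀ u b v, U.polarBilin (U u b) v b = U.polarBilin u v (U b u)
  i1 : ∀ a b c x, U.polarBilin a (U.polarBilin b x c) c =
    U.polarBilin a x (U c b) + U.polarBilin a b (U c x)
  j4 : ∀ a b c x, U.polarBilin a (U.polarBilin a x c) b =
    U.polarBilin (U a b) x c + U a (U.polarBilin b c x)
  e1 : ∀ a c d x, U.polarBilin a (U d x) c + U d (U.polarBilin c x a) =
    U.polarBilin (U.polarBilin a d c) d x
  q21 : ∀ u v b c, U u (U.polarBilin b c v) + U.polarBilin u v (U.polarBilin b c u) =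
    U.polarBilin u (U.polarBilin u v c) b + U.polarBilin v (U u c) b

section derive

variable {R M : Type*} [CommRing R] [AddCommGroup M] [Module R M]
    {U : QuadraticMap R M (Module.End R M)}

lemma polar_symm (U : QuadraticMap R M (Module.End R M)) (a b : M) :
    U.polarBilin a b = U.polarBilin b a := by
  show QuadraticMap.polar (⇑U) a b = QuadraticMap.polar (⇑U) b a
  rw [QuadraticMap.polar_comm]

lemma map_add_eq (U : QuadraticMap R M (Module.End R M)) (a b : M) :
    U (a + b) = U a + U b + U.polarBilin a b := by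
  show U (a + b) = U a + U b + QuadraticMap.polar (⇑U) a b
  rw [QuadraticMap.polar]
  abel

/-- the part of degree (3,1) of the fundamental formula -/
theorem p31 (h : Ids U) (a b c x : M) :
    U.polarBilin (U a b) (U.polarBilin a c b) x =
      U.polarBilin a c (U b (U a x)) + U a (U b (U.polarBilin a c x)) := by
  -- the linearisation of `e1` for the pair `U a b`, `a`
  have h1 := h.e1 c b (U a b + a) x
  have h2 := h.e1 c b (U a b) x
  have h3 := h.e1 c b a x
  simp only [map_add_eq, map_add, LinearMap.add_apply] at h1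
  have h4 : U.polarBilin c (U.polarBilin (U a b) a x) b +
      U.polarBilin (U a b) a (U.polarBilin b x c) =
      U.polarBilin (U.polarBilin c (U a b) b) a x +
      U.polarBilin (U.polarBilin c a b) (U a b) x := by
    have h5 := sub_eq_zero.mpr h1
    have h6 := sub_eq_zero.mpr h2
    have h7 := sub_eq_zero.mpr h3
    rw [← sub_eq_zero]
    have h8 := congrArg₂ (fun p q => p - q) (congrArg₂ (fun p q => p - q) h5 h6) h7
    simp only [sub_zero] at h8
    rw [← h8]
    abel
  have h9 : U.polarBilin c (U a b) b = U.polarBilin c a (U b a) := by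
    rw [polar_symm U c (U a b), h.jp2, polar_symm U a c]
  have h10 := h.e1 c (U b a) a x
  rw [h9, ← h10] at h4
  -- the operators `U_{U_a b, a}`
  have h11 : ∀ y, U.polarBilin (U a b) a y = U.polarBilin a (U a y) b := by
    intro y
    rw [polar_symm U (U a b) a, ← h.qj2 a y b, polar_symm U y b, h.qj2]
  have h12 : ∀ y, U.polarBilin (U a b) a y = U a (U.polarBilin b y a) := by
    intro y
    rw [h11, h.qj2]
  rw [h11 x, h12 (U.polarBilin b x c), h.i1 c a b (U a x), h.j4 b a c x] at h4
  rw [map_add] at h4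
  have h13 : U.polarBilin (U.polarBilin c a b) (U a b) x =
      U.polarBilin (U a b) (U.polarBilin a c b) x := by
    rw [polar_symm U _ (U a b), polar_symm U c a]
  rw [h13] at h4
  rw [polar_symm U c a] at h4
  have h14 : U.polarBilin (U a b) (U.polarBilin a c b) x =
      (U.polarBilin c (U a x) (U b a) + U.polarBilin a c (U b (U a x)) +
        (U a (U.polarBilin (U b a) x c) + U a (U b (U.polarBilin a c x)))) -
      (U.polarBilin c (U a x) (U b a) + U a (U.polarBilin (U b a) x c)) := by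
    rw [h4]
    abel
  rw [h14]
  abel

/-- the expansion of the fundamental formula -/
lemma expand4 (U : QuadraticMap R M (Module.End R M)) (u v y c : M) :
    U (U (u + v) y) c - U (u + v) (U y (U (u + v) c)) =
    (U (U u y) c - U u (U y (U u c))) + (U (U v y) c - U v (U y (U v c))) +
    (U.polarBilin (U u y) (U.polarBilin u v y) c -
      (U.polarBilin u v (U y (U u c)) + U u (U y (U.polarBilin u v c)))) +
    (U.polarBilin (U v y) (U.polarBilin v u y) c -
      (U.polarBilin v u (U y (U v c)) + U v (U y (U.polarBilin v u c)))) +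
    (U.polarBilin (U u y) (U v y) c + U (U.polarBilin u v y) c -
      (U u (U y (U v c)) + U v (U y (U u c)) +
        U.polarBilin u v (U y (U.polarBilin u v c)))) := by
  rw [polar_symm U v u]
  simp only [map_add_eq, map_add, LinearMap.add_apply]
  abel

/-- the part of degree (2,2) of the fundamental formula -/
theorem p22 (h : Ids U) (h4 : ∀ a b c, U (U a b) c = U a (U b (U a c))) (u v y c : M) :
    U.polarBilin (U u y) (U v y) c + U (U.polarBilin u v y) c -
      (U u (U y (U v c)) + U v (U y (U u c)) +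
        U.polarBilin u v (U y (U.polarBilin u v c))) = 0 := by
  have h1 := expand4 U u v y c
  rw [h4, h4, h4, p31 h, p31 h] at h1
  simp only [sub_self, zero_add] at h1
  exact h1.symm

end derive

section transfer

variable {A : Type*} [AddCommGroup A] {U : QuadraticMap ℤ A (Module.End ℤ A)}
  {Ω : Type*} [CommRing Ω] {U' : QuadraticMap Ω (Ω ⊗[ℤ] A) (Module.End Ω (Ω ⊗[ℤ] A))}

lemma comp_U (hU' : ∀ (a c : A) (ω : Ω), U' ((1 : Ω) ⊗ₜ[ℤ] a) (ω ⊗ₜ[ℤ] c) = ω ⊗ₜ[ℤ] (U a c))
    (a c : A) : U' ((1 : Ω) ⊗ₜ[ℤ] a) ((1 : Ω) ⊗ₜ[ℤ] c) = (1 : Ω) ⊗ₜ[ℤ] (U a c) := hU' a c 1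

lemma comp_B (hU' : ∀ (a c : A) (ω : Ω), U' ((1 : Ω) ⊗ₜ[ℤ] a) (ω ⊗ₜ[ℤ] c) = ω ⊗ₜ[ℤ] (U a c))
    (a b c : A) : U'.polarBilin ((1 : Ω) ⊗ₜ[ℤ] a) ((1 : Ω) ⊗ₜ[ℤ] b) ((1 : Ω) ⊗ₜ[ℤ] c) =
      (1 : Ω) ⊗ₜ[ℤ] (U.polarBilin a b c) := by
  show QuadraticMap.polar (⇑U') _ _ _ = (1 : Ω) ⊗ₜ[ℤ] (QuadraticMap.polar (⇑U) _ _ _)
  rw [QuadraticMap.polar, QuadraticMap.polar, ← TensorProduct.tmul_add,
      LinearMap.sub_apply, LinearMap.sub_apply, LinearMap.sub_apply, LinearMap.sub_apply,
      hU', hU', hU', TensorProduct.tmul_sub, TensorProduct.tmul_sub]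

theorem jp2_strict
    (hU' : ∀ (a c : A) (ω : Ω), U' ((1 : Ω) ⊗ₜ[ℤ] a) (ω ⊗ₜ[ℤ] c) = ω ⊗ₜ[ℤ] (U a c))
    (h : ∀ u b v, U.polarBilin (U u b) v b = U.polarBilin u v (U b u)) (u b v : Ω ⊗[ℤ] A) :
    U'.polarBilin (U' u b) v b = U'.polarBilin u v (U' b u) := by
  rw [← sub_eq_zero]
  revert u
  apply quad_ext _ (fun u u' => U'.polarBilin (U'.polarBilin u u' b) v b -
    (U'.polarBilin u v (U' b u') + U'.polarBilin u' v (U' b u)))
  · intros
    simp only [map_add_eq, map_add, LinearMap.add_apply]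
    abel
  · intros
    simp only [QuadraticMap.map_smul, map_smul, LinearMap.smul_apply]
    module
  · intros
    simp only [map_add, LinearMap.add_apply]
    abel
  · intros
    simp only [map_add, LinearMap.add_apply]
    abel
  · intros
    simp only [map_smul, LinearMap.smul_apply]
    module
  · intros
    simp only [map_smul, LinearMap.smul_apply]
    module
  intro u
  revert b
  apply quad_ext _ (fun b b' => U'.polarBilin (U' ((1 : Ω) ⊗ₜ[ℤ] u) b) v b' +
    U'.polarBilin (U' ((1 : Ω) ⊗ₜ[ℤ] u) b') v b -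
    U'.polarBilin ((1 : Ω) ⊗ₜ[ℤ] u) v (U'.polarBilin b b' ((1 : Ω) ⊗ₜ[ℤ] u)))
  · intros
    simp only [map_add_eq, map_add, LinearMap.add_apply]
    abel
  · intros
    simp only [QuadraticMap.map_smul, map_smul, LinearMap.smul_apply]
    module
  · intros
    simp only [map_add, LinearMap.add_apply]
    abel
  · intros
    simp only [map_add, LinearMap.add_apply]
    abel
  · intros
    simp only [map_smul, LinearMap.smul_apply]
    module
  · intros
    simp only [map_smul, LinearMap.smul_apply]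
    module
  intro b
  revert v
  apply lin_ext
  · intros
    simp only [map_add, LinearMap.add_apply]
    abel
  · intros
    simp only [map_smul, LinearMap.smul_apply]
    module
  intro v
  simp only [comp_U hU', comp_B hU', h, sub_self]

theorem i1_strict
    (hU' : ∀ (a c : A) (ω : Ω), U' ((1 : Ω) ⊗ₜ[ℤ] a) (ω ⊗ₜ[ℤ] c) = ω ⊗ₜ[ℤ] (U a c))
    (h : ∀ a b c x, U.polarBilin a (U.polarBilin b x c) c =
      U.polarBilin a x (U c b) + U.polarBilin a b (U c x)) (a b c x : Ω ⊗[ℤ] A) :
    U'.polarBilin a (U'.polarBilin b x c) c =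
      U'.polarBilin a x (U' c b) + U'.polarBilin a b (U' c x) := by
  rw [← sub_eq_zero]
  revert c
  apply quad_ext _ (fun c c' => U'.polarBilin a (U'.polarBilin b x c) c' +
    U'.polarBilin a (U'.polarBilin b x c') c -
    (U'.polarBilin a x (U'.polarBilin c c' b) + U'.polarBilin a b (U'.polarBilin c c' x)))
  · intros
    simp only [map_add_eq, map_add, LinearMap.add_apply]
    abel
  · intros
    simp only [QuadraticMap.map_smul, map_smul, LinearMap.smul_apply]
    module
  · intros
    simp only [map_add, LinearMap.add_apply]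
    abel
  · intros
    simp only [map_add, LinearMap.add_apply]
    abel
  · intros
    simp only [map_smul, LinearMap.smul_apply]
    module
  · intros
    simp only [map_smul, LinearMap.smul_apply]
    module
  intro c
  revert a
  apply lin_ext
  · intros
    simp only [map_add, LinearMap.add_apply]
    abel
  · intros
    simp only [map_smul, LinearMap.smul_apply]
    module
  intro a
  revert b
  apply lin_ext
  · intros
    simp only [map_add, LinearMap.add_apply]
    abel
  · intros
    simp only [map_smul, LinearMap.smul_apply]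
    module
  intro b
  revert x
  apply lin_ext
  · intros
    simp only [map_add, LinearMap.add_apply]
    abel
  · intros
    simp only [map_smul, LinearMap.smul_apply]
    module
  intro x
  simp only [comp_U hU', comp_B hU', h, ← TensorProduct.tmul_add, sub_self]

theorem j4_strict
    (hU' : ∀ (a c : A) (ω : Ω), U' ((1 : Ω) ⊗ₜ[ℤ] a) (ω ⊗ₜ[ℤ] c) = ω ⊗ₜ[ℤ] (U a c))
    (h : ∀ a b c x, U.polarBilin a (U.polarBilin a x c) b =
      U.polarBilin (U a b) x c + U a (U.polarBilin b c x)) (a b c x : Ω ⊗[ℤ] A) :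
    U'.polarBilin a (U'.polarBilin a x c) b =
      U'.polarBilin (U' a b) x c + U' a (U'.polarBilin b c x) := by
  rw [← sub_eq_zero]
  revert a
  apply quad_ext _ (fun a a' => U'.polarBilin a (U'.polarBilin a' x c) b +
    U'.polarBilin a' (U'.polarBilin a x c) b -
    (U'.polarBilin (U'.polarBilin a a' b) x c + U'.polarBilin a a' (U'.polarBilin b c x)))
  · intros
    simp only [map_add_eq, map_add, LinearMap.add_apply]
    abel
  · intros
    simp only [QuadraticMap.map_smul, map_smul, LinearMap.smul_apply]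
    module
  · intros
    simp only [map_add, LinearMap.add_apply]
    abel
  · intros
    simp only [map_add, LinearMap.add_apply]
    abel
  · intros
    simp only [map_smul, LinearMap.smul_apply]
    module
  · intros
    simp only [map_smul, LinearMap.smul_apply]
    module
  intro a
  revert b
  apply lin_ext
  · intros
    simp only [map_add, LinearMap.add_apply]
    abel
  · intros
    simp only [map_smul, LinearMap.smul_apply]
    module
  intro b
  revert c
  apply lin_ext
  · intros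
    simp only [map_add, LinearMap.add_apply]
    abel
  · intros
    simp only [map_smul, LinearMap.smul_apply]
    module
  intro c
  revert x
  apply lin_ext
  · intros
    simp only [map_add, LinearMap.add_apply]
    abel
  · intros
    simp only [map_smul, LinearMap.smul_apply]
    module
  intro x
  simp only [comp_U hU', comp_B hU', h, ← TensorProduct.tmul_add, sub_self]

theorem e1_strict
    (hU' : ∀ (a c : A) (ω : Ω), U' ((1 : Ω) ⊗ₜ[ℤ] a) (ω ⊗ₜ[ℤ] c) = ω ⊗ₜ[ℤ] (U a c))
    (h : ∀ a c d x, U.polarBilin a (U d x) c + U d (U.polarBilin c x a) =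
      U.polarBilin (U.polarBilin a d c) d x) (a c d x : Ω ⊗[ℤ] A) :
    U'.polarBilin a (U' d x) c + U' d (U'.polarBilin c x a) =
      U'.polarBilin (U'.polarBilin a d c) d x := by
  rw [← sub_eq_zero]
  revert d
  apply quad_ext _ (fun d d' => U'.polarBilin a (U'.polarBilin d d' x) c +
    U'.polarBilin d d' (U'.polarBilin c x a) -
    (U'.polarBilin (U'.polarBilin a d c) d' x + U'.polarBilin (U'.polarBilin a d' c) d x))
  · intros
    simp only [map_add_eq, map_add, LinearMap.add_apply]
    abel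
  · intros
    simp only [QuadraticMap.map_smul, map_smul, LinearMap.smul_apply]
    module
  · intros
    simp only [map_add, LinearMap.add_apply]
    abel
  · intros
    simp only [map_add, LinearMap.add_apply]
    abel
  · intros
    simp only [map_smul, LinearMap.smul_apply]
    module
  · intros
    simp only [map_smul, LinearMap.smul_apply]
    module
  intro d
  revert a
  apply lin_ext
  · intros
    simp only [map_add, LinearMap.add_apply]
    abel
  · intros
    simp only [map_smul, LinearMap.smul_apply]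
    module
  intro a
  revert c
  apply lin_ext
  · intros
    simp only [map_add, LinearMap.add_apply]
    abel
  · intros
    simp only [map_smul, LinearMap.smul_apply]
    module
  intro c
  revert x
  apply lin_ext
  · intros
    simp only [map_add, LinearMap.add_apply]
    abel
  · intros
    simp only [map_smul, LinearMap.smul_apply]
    module
  intro x
  simp only [comp_U hU', comp_B hU', ← TensorProduct.tmul_add, h, sub_self]

theorem q21_strict
    (hU' : ∀ (a c : A) (ω : Ω), U' ((1 : Ω) ⊗ₜ[ℤ] a) (ω ⊗ₜ[ℤ] c) = ω ⊗ₜ[ℤ] (U a c))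
    (h : ∀ u v b c, U u (U.polarBilin b c v) + U.polarBilin u v (U.polarBilin b c u) =
      U.polarBilin u (U.polarBilin u v c) b + U.polarBilin v (U u c) b)
    (u v b c : Ω ⊗[ℤ] A) :
    U' u (U'.polarBilin b c v) + U'.polarBilin u v (U'.polarBilin b c u) =
      U'.polarBilin u (U'.polarBilin u v c) b + U'.polarBilin v (U' u c) b := by
  rw [← sub_eq_zero]
  revert u
  apply quad_ext _ (fun u u' => U'.polarBilin u u' (U'.polarBilin b c v) +
    U'.polarBilin u v (U'.polarBilin b c u') + U'.polarBilin u' v (U'.polarBilin b c u) -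
    (U'.polarBilin u (U'.polarBilin u' v c) b + U'.polarBilin u' (U'.polarBilin u v c) b +
      U'.polarBilin v (U'.polarBilin u u' c) b))
  · intros
    simp only [map_add_eq, map_add, LinearMap.add_apply]
    abel
  · intros
    simp only [QuadraticMap.map_smul, map_smul, LinearMap.smul_apply]
    module
  · intros
    simp only [map_add, LinearMap.add_apply]
    abel
  · intros
    simp only [map_add, LinearMap.add_apply]
    abel
  · intros
    simp only [map_smul, LinearMap.smul_apply]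
    module
  · intros
    simp only [map_smul, LinearMap.smul_apply]
    module
  intro u
  revert v
  apply lin_ext
  · intros
    simp only [map_add, LinearMap.add_apply]
    abel
  · intros
    simp only [map_smul, LinearMap.smul_apply]
    module
  intro v
  revert b
  apply lin_ext
  · intros
    simp only [map_add, LinearMap.add_apply]
    abel
  · intros
    simp only [map_smul, LinearMap.smul_apply]
    module
  intro b
  revert c
  apply lin_ext
  · intros
    simp only [map_add, LinearMap.add_apply]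
    abel
  · intros
    simp only [map_smul, LinearMap.smul_apply]
    module
  intro c
  simp only [comp_U hU', comp_B hU', ← TensorProduct.tmul_add, h, sub_self]

theorem qj2_strict
    (hU' : ∀ (a c : A) (ω : Ω), U' ((1 : Ω) ⊗ₜ[ℤ] a) (ω ⊗ₜ[ℤ] c) = ω ⊗ₜ[ℤ] (U a c))
    (h : ∀ a b c, U a (U.polarBilin b c a) = U.polarBilin a (U a c) b)
    (h21 : ∀ u v b c : Ω ⊗[ℤ] A,
      U' u (U'.polarBilin b c v) + U'.polarBilin u v (U'.polarBilin b c u) =
      U'.polarBilin u (U'.polarBilin u v c) b + U'.polarBilin v (U' u c) b)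
    (a b c : Ω ⊗[ℤ] A) :
    U' a (U'.polarBilin b c a) = U'.polarBilin a (U' a c) b := by
  rw [← sub_eq_zero]
  induction a using TensorProduct.induction_on with
  | zero => simp
  | add u v ihu ihv =>
    have h1 := sub_eq_zero.mpr (h21 u v b c)
    have h2 := sub_eq_zero.mpr (h21 v u b c)
    rw [polar_symm U' v u] at h2
    have h3 : U' (u + v) (U'.polarBilin b c (u + v)) -
        U'.polarBilin (u + v) (U' (u + v) c) b =
        (U' u (U'.polarBilin b c u) - U'.polarBilin u (U' u c) b) +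
        (U' v (U'.polarBilin b c v) - U'.polarBilin v (U' v c) b) +
        (U' u (U'.polarBilin b c v) + U'.polarBilin u v (U'.polarBilin b c u) -
          (U'.polarBilin u (U'.polarBilin u v c) b + U'.polarBilin v (U' u c) b)) +
        (U' v (U'.polarBilin b c u) + U'.polarBilin u v (U'.polarBilin b c v) -
          (U'.polarBilin v (U'.polarBilin u v c) b + U'.polarBilin u (U' v c) b)) := by
      simp only [map_add_eq, map_add, LinearMap.add_apply]
      abel
    rw [h3, ihu, ihv, h1, h2, add_zero, add_zero, add_zero]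
  | tmul ω a =>
    have h3 : ω ⊗ₜ[ℤ] a = ω • ((1 : Ω) ⊗ₜ[ℤ] a) := by
      rw [TensorProduct.smul_tmul', smul_eq_mul, mul_one]
    have h4 : ∀ b c : Ω ⊗[ℤ] A, U' ((1 : Ω) ⊗ₜ[ℤ] a) (U'.polarBilin b c ((1 : Ω) ⊗ₜ[ℤ] a)) -
        U'.polarBilin ((1 : Ω) ⊗ₜ[ℤ] a) (U' ((1 : Ω) ⊗ₜ[ℤ] a) c) b = 0 := by
      intro b c
      revert b
      apply lin_ext
      · intros
        simp only [map_add, LinearMap.add_apply]
        abel
      · intros
        simp only [map_smul, LinearMap.smul_apply]
        module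
      intro b
      revert c
      apply lin_ext
      · intros
        simp only [map_add, LinearMap.add_apply]
        abel
      · intros
        simp only [map_smul, LinearMap.smul_apply]
        module
      intro c
      simp only [comp_U hU', comp_B hU', h, sub_self]
    have h5 : U' (ω • ((1 : Ω) ⊗ₜ[ℤ] a)) (U'.polarBilin b c (ω • ((1 : Ω) ⊗ₜ[ℤ] a))) -
        U'.polarBilin (ω • ((1 : Ω) ⊗ₜ[ℤ] a)) (U' (ω • ((1 : Ω) ⊗ₜ[ℤ] a)) c) b =
        (ω * ω * ω) • (U' ((1 : Ω) ⊗ₜ[ℤ] a) (U'.polarBilin b c ((1 : Ω) ⊗ₜ[ℤ] a)) -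
        U'.polarBilin ((1 : Ω) ⊗ₜ[ℤ] a) (U' ((1 : Ω) ⊗ₜ[ℤ] a) c) b) := by
      simp only [QuadraticMap.map_smul, map_smul, LinearMap.smul_apply]
      module
    rw [h3, h5, h4, smul_zero]

theorem p22_strict
    (hU' : ∀ (a c : A) (ω : Ω), U' ((1 : Ω) ⊗ₜ[ℤ] a) (ω ⊗ₜ[ℤ] c) = ω ⊗ₜ[ℤ] (U a c))
    (h : ∀ u v y c, U.polarBilin (U u y) (U v y) c + U (U.polarBilin u v y) c -
      (U u (U y (U v c)) + U v (U y (U u c)) +
        U.polarBilin u v (U y (U.polarBilin u v c))) = 0) (u v y c : Ω ⊗[ℤ] A) :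
    U'.polarBilin (U' u y) (U' v y) c + U' (U'.polarBilin u v y) c -
      (U' u (U' y (U' v c)) + U' v (U' y (U' u c)) +
        U'.polarBilin u v (U' y (U'.polarBilin u v c))) = 0 := by
  revert u
  apply quad_ext _ (fun u u' => U'.polarBilin (U'.polarBilin u u' y) (U' v y) c +
    U'.polarBilin (U'.polarBilin u v y) (U'.polarBilin u' v y) c -
    (U'.polarBilin u u' (U' y (U' v c)) + U' v (U' y (U'.polarBilin u u' c)) +
      U'.polarBilin u v (U' y (U'.polarBilin u' v c)) +
      U'.polarBilin u' v (U' y (U'.polarBilin u v c))))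
  · intros
    simp only [map_add_eq, map_add, LinearMap.add_apply]
    abel
  · intros
    simp only [QuadraticMap.map_smul, map_smul, LinearMap.smul_apply]
    module
  · intros
    simp only [map_add, LinearMap.add_apply]
    abel
  · intros
    simp only [map_add, LinearMap.add_apply]
    abel
  · intros
    simp only [map_smul, LinearMap.smul_apply]
    module
  · intros
    simp only [map_smul, LinearMap.smul_apply]
    module
  intro u
  revert v
  apply quad_ext _ (fun v v' => U'.polarBilin (U' ((1 : Ω) ⊗ₜ[ℤ] u) y) (U'.polarBilin v v' y) c +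
    U'.polarBilin (U'.polarBilin ((1 : Ω) ⊗ₜ[ℤ] u) v y) (U'.polarBilin ((1 : Ω) ⊗ₜ[ℤ] u) v' y) c -
    (U' ((1 : Ω) ⊗ₜ[ℤ] u) (U' y (U'.polarBilin v v' c)) + U'.polarBilin v v' (U' y (U' ((1 : Ω) ⊗ₜ[ℤ] u) c)) +
      U'.polarBilin ((1 : Ω) ⊗ₜ[ℤ] u) v (U' y (U'.polarBilin ((1 : Ω) ⊗ₜ[ℤ] u) v' c)) +
      U'.polarBilin ((1 : Ω) ⊗ₜ[ℤ] u) v' (U' y (U'.polarBilin ((1 : Ω) ⊗ₜ[ℤ] u) v c))))
  · intros
    simp only [map_add_eq, map_add, LinearMap.add_apply]
    abel
  · intros
    simp only [QuadraticMap.map_smul, map_smul, LinearMap.smul_apply]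
    module
  · intros
    simp only [map_add, LinearMap.add_apply]
    abel
  · intros
    simp only [map_add, LinearMap.add_apply]
    abel
  · intros
    simp only [map_smul, LinearMap.smul_apply]
    module
  · intros
    simp only [map_smul, LinearMap.smul_apply]
    module
  intro v
  revert y
  apply quad_ext _ (fun y y' => U'.polarBilin (U' ((1 : Ω) ⊗ₜ[ℤ] u) y) (U' ((1 : Ω) ⊗ₜ[ℤ] v) y') c +
    U'.polarBilin (U' ((1 : Ω) ⊗ₜ[ℤ] u) y') (U' ((1 : Ω) ⊗ₜ[ℤ] v) y) c +
    U'.polarBilin (U'.polarBilin ((1 : Ω) ⊗ₜ[ℤ] u) ((1 : Ω) ⊗ₜ[ℤ] v) y) (U'.polarBilin ((1 : Ω) ⊗ₜ[ℤ] u) ((1 : Ω) ⊗ₜ[ℤ] v) y') c -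
    (U' ((1 : Ω) ⊗ₜ[ℤ] u) (U'.polarBilin y y' (U' ((1 : Ω) ⊗ₜ[ℤ] v) c)) + U' ((1 : Ω) ⊗ₜ[ℤ] v) (U'.polarBilin y y' (U' ((1 : Ω) ⊗ₜ[ℤ] u) c)) +
      U'.polarBilin ((1 : Ω) ⊗ₜ[ℤ] u) ((1 : Ω) ⊗ₜ[ℤ] v) (U'.polarBilin y y' (U'.polarBilin ((1 : Ω) ⊗ₜ[ℤ] u) ((1 : Ω) ⊗ₜ[ℤ] v) c))))
  · intros
    simp only [map_add_eq, map_add, LinearMap.add_apply]
    abel
  · intros
    simp only [QuadraticMap.map_smul, map_smul, LinearMap.smul_apply]
    module
  · intros
    simp only [map_add, LinearMap.add_apply]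
    abel
  · intros
    simp only [map_add, LinearMap.add_apply]
    abel
  · intros
    simp only [map_smul, LinearMap.smul_apply]
    module
  · intros
    simp only [map_smul, LinearMap.smul_apply]
    module
  intro y
  revert c
  apply lin_ext
  · intros
    simp only [map_add, LinearMap.add_apply]
    abel
  · intros
    simp only [map_smul, LinearMap.smul_apply]
    module
  intro c
  simp only [comp_U hU', comp_B hU', ← TensorProduct.tmul_add, ← TensorProduct.tmul_sub, h,
    TensorProduct.tmul_zero]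

theorem h4_pure
    (hU' : ∀ (a c : A) (ω : Ω), U' ((1 : Ω) ⊗ₜ[ℤ] a) (ω ⊗ₜ[ℤ] c) = ω ⊗ₜ[ℤ] (U a c))
    (h : ∀ a b c, U (U a b) c = U a (U b (U a c))) (a : A) (b c : Ω ⊗[ℤ] A) :
    U' (U' ((1 : Ω) ⊗ₜ[ℤ] a) b) c - U' ((1 : Ω) ⊗ₜ[ℤ] a) (U' b (U' ((1 : Ω) ⊗ₜ[ℤ] a) c)) =
      0 := by
  revert b
  apply quad_ext _ (fun b b' => U'.polarBilin (U' ((1 : Ω) ⊗ₜ[ℤ] a) b) (U' ((1 : Ω) ⊗ₜ[ℤ] a) b') c -
    U' ((1 : Ω) ⊗ₜ[ℤ] a) (U'.polarBilin b b' (U' ((1 : Ω) ⊗ₜ[ℤ] a) c)))
  · intros
    simp only [map_add_eq, map_add, LinearMap.add_apply]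
    abel
  · intros
    simp only [QuadraticMap.map_smul, map_smul, LinearMap.smul_apply]
    module
  · intros
    simp only [map_add, LinearMap.add_apply]
    abel
  · intros
    simp only [map_add, LinearMap.add_apply]
    abel
  · intros
    simp only [map_smul, LinearMap.smul_apply]
    module
  · intros
    simp only [map_smul, LinearMap.smul_apply]
    module
  intro b
  revert c
  apply lin_ext
  · intros
    simp only [map_add, LinearMap.add_apply]
    abel
  · intros
    simp only [map_smul, LinearMap.smul_apply]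
    module
  intro c
  simp only [comp_U hU', h, sub_self]

/-- the auxiliary identities after a scalar extension -/
theorem ids_strict
    (hU' : ∀ (a c : A) (ω : Ω), U' ((1 : Ω) ⊗ₜ[ℤ] a) (ω ⊗ₜ[ℤ] c) = ω ⊗ₜ[ℤ] (U a c))
    (h : Ids U) : Ids U' where
  qj2 := qj2_strict hU' h.qj2 (q21_strict hU' h.q21)
  jp2 := jp2_strict hU' h.jp2
  i1 := i1_strict hU' h.i1
  j4 := j4_strict hU' h.j4
  e1 := e1_strict hU' h.e1
  q21 := q21_strict hU' h.q21

/-- strictness of the fundamental formula -/
theorem h4_strict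
    (hU' : ∀ (a c : A) (ω : Ω), U' ((1 : Ω) ⊗ₜ[ℤ] a) (ω ⊗ₜ[ℤ] c) = ω ⊗ₜ[ℤ] (U a c))
    (hi : Ids U) (h : ∀ a b c, U (U a b) c = U a (U b (U a c))) (x y c : Ω ⊗[ℤ] A) :
    U' (U' x y) c - U' x (U' y (U' x c)) = 0 := by
  have hi' := ids_strict hU' hi
  induction x using TensorProduct.induction_on with
  | zero => simp
  | add u v ihu ihv =>
    rw [expand4, ihu, ihv, p31 hi', p31 hi', p22_strict hU' (p22 hi h)]
    simp only [sub_self, add_zero]
  | tmul ω a =>
    have h3 : ω ⊗ₜ[ℤ] a = ω • ((1 : Ω) ⊗ₜ[ℤ] a) := by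
      rw [TensorProduct.smul_tmul', smul_eq_mul, mul_one]
    have h5 : U' (U' (ω • ((1 : Ω) ⊗ₜ[ℤ] a)) y) c -
        U' (ω • ((1 : Ω) ⊗ₜ[ℤ] a)) (U' y (U' (ω • ((1 : Ω) ⊗ₜ[ℤ] a)) c)) =
        (ω * ω * ω * ω) • (U' (U' ((1 : Ω) ⊗ₜ[ℤ] a) y) c -
          U' ((1 : Ω) ⊗ₜ[ℤ] a) (U' y (U' ((1 : Ω) ⊗ₜ[ℤ] a) c))) := by
      simp only [QuadraticMap.map_smul, map_smul, LinearMap.smul_apply]
      module
    rw [h3, h5, h4_pure hU' h, smul_zero]

/-- The Jordan identities after a scalar extension. -/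
theorem jordan_strict
    (hU' : ∀ (a c : A) (ω : Ω), U' ((1 : Ω) ⊗ₜ[ℤ] a) (ω ⊗ₜ[ℤ] c) = ω ⊗ₜ[ℤ] (U a c))
    (hi : Ids U) (h : ∀ a b : A, U (U a b) = U a * U b * U a) :
    (∀ x y z : Ω ⊗[ℤ] A,
      U' x ((QuadraticMap.polar (⇑U') y z) x) = (QuadraticMap.polar (⇑U') x (U' x z)) y) ∧
    (∀ x y : Ω ⊗[ℤ] A, U' (U' x y) = U' x * U' y * U' x) := by
  constructor
  · intro x y z
    exact (ids_strict hU' hi).qj2 x y z
  · intro x y
    apply LinearMap.ext
    intro c
    have h1 : ∀ a b c, U (U a b) c = U a (U b (U a c)) := by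
      intro a b c
      rw [h]
      rfl
    exact sub_eq_zero.mp (h4_strict hU' hi h1 x y c)

end transfer

end Pool.Agent.HuaStr91
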